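import Pool.Agent.H953R2.EC.Heis

/-! The invariant potential on complex 3-space and its Levi form. -/

set_option autoImplicit false

open scoped ContDiff
open Set Filter Topology

namespace Pool.Agent.H953R2.EC

noncomputable section

section onevar

variable (p q s0 p1 q1 s1 s2 : ℝ)

/-- the exponent -/
def phi (t : ℝ) : ℝ := 2 * (p + p1 * t) ^ 2 + 2 * (q + q1 * t) ^ 2

/-- the argument of the hyperbolic cosine -/
def sig (t : ℝ) : ℝ := s0 + s1 * t + s2 * t ^ 2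

/-- the restriction of the potential to a real line -/
def FF (t : ℝ) : ℝ := Real.exp (phi p q p1 q1 t) * Real.cosh (sig s0 s1 s2 t) ^ 2

lemma hasDerivAt_phi (t : ℝ) : HasDerivAt (phi p q p1 q1)
    (4 * p1 * (p + p1 * t) + 4 * q1 * (q + q1 * t)) t := by
  unfold phi
  have h1 : HasDerivAt (fun t : ℝ => p + p1 * t) p1 t := by
    simpa using ((hasDerivAt_id t).const_mul p1).const_add p
  have h2 : HasDerivAt (fun t : ℝ => q + q1 * t) q1 t := by
    simpa using ((hasDerivAt_id t).const_mul q1).const_add q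
  have h3 := ((h1.pow 2).const_mul 2).add ((h2.pow 2).const_mul 2)
  convert! h3 using 1
  simp
  ring

lemma hasDerivAt_sig (t : ℝ) : HasDerivAt (sig s0 s1 s2) (s1 + 2 * s2 * t) t := by
  unfold sig
  have h1 : HasDerivAt (fun t : ℝ => s1 * t) s1 t := by
    simpa using (hasDerivAt_id t).const_mul s1
  have h2 : HasDerivAt (fun t : ℝ => s2 * t ^ 2) (s2 * (2 * t)) t := by
    simpa using ((hasDerivAt_id t).pow 2).const_mul s2
  convert! (h1.const_add s0).add h2 using 1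
  ring

/-- the first derivative -/
def FF1 (t : ℝ) : ℝ := Real.exp (phi p q p1 q1 t) *
  ((4 * p1 * (p + p1 * t) + 4 * q1 * (q + q1 * t)) * Real.cosh (sig s0 s1 s2 t) ^ 2 +
    2 * Real.cosh (sig s0 s1 s2 t) * Real.sinh (sig s0 s1 s2 t) * (s1 + 2 * s2 * t))

lemma hasDerivAt_FF (t : ℝ) : HasDerivAt (FF p q s0 p1 q1 s1 s2)
    (FF1 p q s0 p1 q1 s1 s2 t) t := by
  have h1 := (hasDerivAt_phi p q p1 q1 t).exp
  have h2 := ((hasDerivAt_sig s0 s1 s2 t).cosh).pow 2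
  convert! h1.mul h2 using 1
  unfold FF1
  simp
  ring

lemma hasDerivAt_FF1 : HasDerivAt (FF1 p q s0 p1 q1 s1 s2)
    (Real.exp (2 * p ^ 2 + 2 * q ^ 2) *
      (4 * (p1 ^ 2 + q1 ^ 2) * Real.cosh s0 ^ 2 +
        (4 * (p1 * p + q1 * q) * Real.cosh s0 + 2 * Real.sinh s0 * s1) ^ 2 +
        2 * s1 ^ 2 + 4 * Real.cosh s0 * Real.sinh s0 * s2)) 0 := by
  have h1 := (hasDerivAt_phi p q p1 q1 0).exp
  have hc := (hasDerivAt_sig s0 s1 s2 0).cosh
  have hs := (hasDerivAt_sig s0 s1 s2 0).sinh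
  have ha : HasDerivAt (fun t : ℝ => 4 * p1 * (p + p1 * t) + 4 * q1 * (q + q1 * t))
      (4 * p1 * p1 + 4 * q1 * q1) 0 := by
    have h3 : HasDerivAt (fun t : ℝ => p + p1 * t) p1 0 := by
      simpa using ((hasDerivAt_id (0 : ℝ)).const_mul p1).const_add p
    have h4 : HasDerivAt (fun t : ℝ => q + q1 * t) q1 0 := by
      simpa using ((hasDerivAt_id (0 : ℝ)).const_mul q1).const_add q
    exact (h3.const_mul (4 * p1)).add (h4.const_mul (4 * q1))
  have hb : HasDerivAt (fun t : ℝ => s1 + 2 * s2 * t) (2 * s2) 0 := by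
    simpa using ((hasDerivAt_id (0 : ℝ)).const_mul (2 * s2)).const_add s1
  have h5 := h1.mul ((ha.mul (hc.pow 2)).add (((hc.const_mul 2).mul hs).mul hb))
  convert! h5 using 1
  have e0 : phi p q p1 q1 0 = 2 * p ^ 2 + 2 * q ^ 2 := by unfold phi; ring
  have e1 : sig s0 s1 s2 0 = s0 := by unfold sig; ring
  have e2 := Real.cosh_sq s0
  simp only [e0, e1, Pi.mul_apply, Pi.pow_apply, Pi.add_apply]
  simp
  linear_combination (-Real.exp (2 * p ^ 2 + 2 * q ^ 2) * 2 * s1 ^ 2) * e2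

lemma iteratedDeriv_FF : iteratedDeriv 2 (FF p q s0 p1 q1 s1 s2) 0 =
    Real.exp (2 * p ^ 2 + 2 * q ^ 2) *
      (4 * (p1 ^ 2 + q1 ^ 2) * Real.cosh s0 ^ 2 +
        (4 * (p1 * p + q1 * q) * Real.cosh s0 + 2 * Real.sinh s0 * s1) ^ 2 +
        2 * s1 ^ 2 + 4 * Real.cosh s0 * Real.sinh s0 * s2) := by
  rw [iteratedDeriv_succ, iteratedDeriv_one]
  have h : deriv (FF p q s0 p1 q1 s1 s2) = FF1 p q s0 p1 q1 s1 s2 :=
    funext fun t => (hasDerivAt_FF p q s0 p1 q1 s1 s2 t).deriv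
  rw [h]
  exact (hasDerivAt_FF1 p q s0 p1 q1 s1 s2).deriv

end onevar

/-- the invariant function `s` -/
def ss (z : C3) : ℝ := z.2.2.im - z.1.re * z.2.1.im

/-- the invariant potential -/
def pot (z : C3) : ℝ := Real.exp (2 * z.1.im ^ 2 + 2 * z.2.1.im ^ 2) * Real.cosh (ss z) ^ 2

lemma pot_smul (g : Hz) (z : C3) : pot (g • z) = pot z := by
  have h1 : (g • z).1.im = z.1.im := by simp [Hz.smul_def]
  have h2 : (g • z).2.1.im = z.2.1.im := by simp [Hz.smul_def]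
  have h3 : ss (g • z) = ss z := by
    unfold ss
    simp [Hz.smul_def]
    ring
  unfold pot
  rw [h1, h2, h3]

lemma contDiff_pot : ContDiff ℝ ∞ pot := by
  have h1 : ContDiff ℝ ∞ (fun z : C3 => z.1.im) :=
    Complex.imCLM.contDiff.comp contDiff_fst
  have h2 : ContDiff ℝ ∞ (fun z : C3 => z.2.1.im) :=
    Complex.imCLM.contDiff.comp (contDiff_fst.comp contDiff_snd)
  have h3 : ContDiff ℝ ∞ (fun z : C3 => z.2.2.im) :=
    Complex.imCLM.contDiff.comp (contDiff_snd.comp contDiff_snd)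
  have h4 : ContDiff ℝ ∞ (fun z : C3 => z.1.re) :=
    Complex.reCLM.contDiff.comp contDiff_fst
  have h5 : ContDiff ℝ ∞ ss := h3.sub (h4.mul h2)
  exact (((contDiff_const.mul (h1.pow 2)).add (contDiff_const.mul (h2.pow 2))).exp).mul
    ((Real.contDiff_cosh.comp h5).pow 2)

/-- the invariant hermitian form -/
def hh (z v : C3) : ℝ := ‖v.1‖ ^ 2 + ‖v.2.1‖ ^ 2 +
  ‖v.2.2 - (z.1.re : ℂ) * v.2.1 - (z.2.1.im : ℂ) * Complex.I * v.1‖ ^ 2

lemma hh_smul (g : Hz) (z v : C3) :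
    hh (g • z) (v.1, v.2.1, v.2.2 + (g.m : ℂ) * v.2.1) = hh z v := by
  unfold hh
  have : (v.2.2 + (g.m : ℂ) * v.2.1) - (((g • z).1.re : ℝ) : ℂ) * v.2.1 -
      (((g • z).2.1.im : ℝ) : ℂ) * Complex.I * v.1 =
      v.2.2 - (z.1.re : ℂ) * v.2.1 - (z.2.1.im : ℂ) * Complex.I * v.1 := by
    simp [Hz.smul_def]
    ring
  simp only [this]

lemma hh_pos (z v : C3) (hv : v ≠ 0) : 0 < hh z v := by
  unfold hh
  by_contra hcon
  have h1 := sq_nonneg ‖v.1‖
  have h2 := sq_nonneg ‖v.2.1‖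
  have h3 := sq_nonneg
    ‖v.2.2 - (z.1.re : ℂ) * v.2.1 - (z.2.1.im : ℂ) * Complex.I * v.1‖
  have e1 : v.1 = 0 := norm_eq_zero.1 (pow_eq_zero_iff (two_ne_zero) |>.1 (by linarith))
  have e2 : v.2.1 = 0 := norm_eq_zero.1 (pow_eq_zero_iff (two_ne_zero) |>.1 (by linarith))
  have e3 : v.2.2 - (z.1.re : ℂ) * v.2.1 - (z.2.1.im : ℂ) * Complex.I * v.1 = 0 :=
    norm_eq_zero.1 (pow_eq_zero_iff (two_ne_zero) |>.1 (by linarith))
  rw [e1, e2] at e3
  apply hv
  ext1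
  · exact e1
  · ext1
    · exact e2
    · simpa using e3

lemma levi_pot (z v : C3) : hh z v / 2 ≤ leviCoord pot z v := by
  obtain ⟨a, b, c⟩ := z
  obtain ⟨α, β, γ⟩ := v
  have h1 : (fun t : ℝ => pot ((a, b, c) + (t : ℂ) • ((α, β, γ) : C3))) =
      FF a.im b.im (c.im - a.re * b.im) α.im β.im (γ.im - a.re * β.im - b.im * α.re)
        (-(α.re * β.im)) := by
    funext t
    unfold pot FF phi sig ss
    simp
    ring_nf
  have h2 : (fun t : ℝ => pot ((a, b, c) + ((t : ℂ) * Complex.I) • ((α, β, γ) : C3))) =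
      FF a.im b.im (c.im - a.re * b.im) α.re β.re (γ.re - a.re * β.re + b.im * α.im)
        (α.im * β.re) := by
    funext t
    unfold pot FF phi sig ss
    simp
    ring_nf
  unfold leviCoord
  rw [h1, h2, iteratedDeriv_FF, iteratedDeriv_FF]
  have h3 : hh (a, b, c) (α, β, γ) = (α.re ^ 2 + α.im ^ 2) + (β.re ^ 2 + β.im ^ 2) +
      ((γ.im - a.re * β.im - b.im * α.re) ^ 2 + (γ.re - a.re * β.re + b.im * α.im) ^ 2) := by
    unfold hh
    rw [← Complex.normSq_eq_norm_sq, ← Complex.normSq_eq_norm_sq, ← Complex.normSq_eq_norm_sq,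
      Complex.normSq_apply, Complex.normSq_apply, Complex.normSq_apply]
    simp
    ring
  rw [h3]
  set s := c.im - a.re * b.im
  set T1 := γ.im - a.re * β.im - b.im * α.re
  set T2 := γ.re - a.re * β.re + b.im * α.im
  set C := Real.cosh s with hC
  set S := Real.sinh s with hS
  set K := Real.exp (2 * a.im ^ 2 + 2 * b.im ^ 2) with hK
  have hK1 : 1 ≤ K := Real.one_le_exp (by positivity)
  have hC1 : 1 ≤ C := Real.one_le_cosh s
  have hCS : C ^ 2 = S ^ 2 + 1 := Real.cosh_sq s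
  have hSC : |S| ≤ C := by
    apply abs_le_of_sq_le_sq' _ (by linarith) |> abs_le.2
    linarith
  have key : 2 * C * S * (α.im * β.re - α.re * β.im) ≥
      - (C ^ 2 * ((α.re ^ 2 + α.im ^ 2) + (β.re ^ 2 + β.im ^ 2))) := by
    have h5 : |α.im * β.re - α.re * β.im| ≤
        ((α.re ^ 2 + α.im ^ 2) + (β.re ^ 2 + β.im ^ 2)) / 2 := by
      rw [abs_le]
      constructor <;> nlinarith [sq_nonneg (α.im - β.re), sq_nonneg (α.re - β.im),
        sq_nonneg (α.im + β.re), sq_nonneg (α.re + β.im)]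
    have h6 : |2 * C * S * (α.im * β.re - α.re * β.im)| ≤
        2 * C * C * (((α.re ^ 2 + α.im ^ 2) + (β.re ^ 2 + β.im ^ 2)) / 2) := by
      rw [abs_mul, abs_mul, abs_of_nonneg (by positivity : (0 : ℝ) ≤ 2 * C)]
      have : 2 * C * |S| ≤ 2 * C * C := by
        apply mul_le_mul_of_nonneg_left hSC (by positivity)
      exact mul_le_mul this h5 (abs_nonneg _) (by positivity)
    have h7 := neg_le_of_abs_le h6
    nlinarith
  have hC2 : 1 ≤ C ^ 2 := by nlinarith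
  set N := (α.re ^ 2 + α.im ^ 2) + (β.re ^ 2 + β.im ^ 2) with hN
  have hN0 : 0 ≤ N := by positivity
  have hM0 : 0 ≤ T1 ^ 2 + T2 ^ 2 := by positivity
  have e : (4 * (α.im ^ 2 + β.im ^ 2) * C ^ 2 +
        (4 * (α.im * a.im + β.im * b.im) * C + 2 * S * T1) ^ 2 +
        2 * T1 ^ 2 + 4 * C * S * (-(α.re * β.im))) +
      (4 * (α.re ^ 2 + β.re ^ 2) * C ^ 2 +
        (4 * (α.re * a.im + β.re * b.im) * C + 2 * S * T2) ^ 2 +
        2 * T2 ^ 2 + 4 * C * S * (α.im * β.re)) ≥ 2 * (N + (T1 ^ 2 + T2 ^ 2)) := by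
    have e1 := sq_nonneg (4 * (α.im * a.im + β.im * b.im) * C + 2 * S * T1)
    have e2 := sq_nonneg (4 * (α.re * a.im + β.re * b.im) * C + 2 * S * T2)
    nlinarith [mul_nonneg (sub_nonneg.2 hC2) hN0]
  have e' := mul_le_mul_of_nonneg_right hK1
    (by linarith [e, hN0, hM0] : (0 : ℝ) ≤ ((4 * (α.im ^ 2 + β.im ^ 2) * C ^ 2 +
        (4 * (α.im * a.im + β.im * b.im) * C + 2 * S * T1) ^ 2 +
        2 * T1 ^ 2 + 4 * C * S * (-(α.re * β.im))) +
      (4 * (α.re ^ 2 + β.re ^ 2) * C ^ 2 +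
        (4 * (α.re * a.im + β.re * b.im) * C + 2 * S * T2) ^ 2 +
        2 * T2 ^ 2 + 4 * C * S * (α.im * β.re))))
  rw [one_mul] at e'
  rw [← mul_add]
  linarith

end

end Pool.Agent.H953R2.EC
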