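import Pool.Agent.H953R2.EC.Man

/-! Completeness of the Kaehler metric on the quotient. -/

set_option autoImplicit false

open scoped Manifold ContDiff
open Set Filter Topology MeasureTheory

namespace Pool.Agent.H953R2.EC

noncomputable section

lemma pos_potX (x : HX) (v : C3) (hv : v ≠ 0) : 0 < levi potX x v := by
  rw [levi_potX]
  have h1 := levi_pot (lf x) v
  have h2 := hh_pos (lf x) v hv
  linarith

/-- integrability of a function dominated by the speed -/
lemma int_of_le {f : ℝ → ℂ} (hm : Measurable f) {F : ℝ → ℝ} {T : ℝ} (hT : 0 ≤ T)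
    (hF : IntegrableOn F (Ici 0)) (C : ℝ) (h : ∀ t, T < t → ‖f t‖ ≤ C * F t) :
    IntegrableOn f (Ioi T) := by
  have h1 : IntegrableOn (fun t => C * F t) (Ioi T) :=
    (hF.mono_set (fun t ht => hT.trans (le_of_lt ht))).const_mul C
  refine Integrable.mono' h1 hm.aestronglyMeasurable ?_
  rw [ae_restrict_iff' measurableSet_Ioi]
  exact Eventually.of_forall fun t ht => h t ht

theorem complete_potX : IsCompleteKahlerPotential (E := C3) potX where
  smooth := smooth_potX
  pos := pos_potX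
  complete := by
    intro γ hγ hint
    -- lift the curve
    obtain ⟨Γ, ⟨-, hΓ⟩, -⟩ := hpr.isCoveringMap.existsUnique_continuousMap_lifts
      (⟨γ, hγ.continuous⟩ : C(ℝ, HX)) 0 (lf (γ 0)) (pr_lf _)
    have hΓ' : ∀ t, pr (Γ t) = γ t := fun t => congrFun hΓ t
    have hl := lift_deriv γ hγ Γ Γ.continuous hΓ'
    set F : ℝ → ℝ := fun t => √(levi potX (γ t) (velocity (E := C3) γ t)) with hF
    have hb : ∀ t, hh (Γ t) (deriv Γ t) ≤ 2 * F t ^ 2 := by
      intro t
      have h1 := levi_pot (lf (γ t)) (velocity (E := C3) γ t)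
      rw [← (hl t).2, ← levi_potX] at h1
      have h2 : 0 ≤ hh (Γ t) (deriv Γ t) := by unfold hh; positivity
      have h3 : F t ^ 2 = levi potX (γ t) (velocity (E := C3) γ t) :=
        Real.sq_sqrt (by linarith)
      rw [h3]
      linarith
    have hF0 : ∀ t, 0 ≤ F t := fun t => Real.sqrt_nonneg _
    have hcomp : ∀ (t : ℝ) (w : ℂ), ‖w‖ ^ 2 ≤ hh (Γ t) (deriv Γ t) → ‖w‖ ≤ 2 * F t := by
      intro t w hw
      apply abs_le_of_sq_le_sq' _ (by linarith [hF0 t]) |>.2
      nlinarith [hb t, sq_nonneg (F t)]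
    have hmeas : Measurable (deriv (Γ : ℝ → C3)) := measurable_deriv _
    have ha : ∀ t, HasDerivAt (fun s => (Γ s).1) (deriv Γ t).1 t :=
      fun t => (hl t).1.hasDerivAt.fst
    have hb' : ∀ t, HasDerivAt (fun s => (Γ s).2.1) (deriv Γ t).2.1 t :=
      fun t => (hl t).1.hasDerivAt.snd.fst
    have hc : ∀ t, HasDerivAt (fun s => (Γ s).2.2) (deriv Γ t).2.2 t :=
      fun t => (hl t).1.hasDerivAt.snd.snd
    have n1 : ∀ t, ‖(deriv Γ t).1‖ ≤ 2 * F t := fun t => hcomp t _ (by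
      unfold hh
      have h2 := sq_nonneg ‖(deriv Γ t).2.1‖
      have h3 := sq_nonneg ‖(deriv Γ t).2.2 - ((Γ t).1.re : ℂ) * (deriv Γ t).2.1 -
        ((Γ t).2.1.im : ℂ) * Complex.I * (deriv Γ t).1‖
      linarith)
    have n2 : ∀ t, ‖(deriv Γ t).2.1‖ ≤ 2 * F t := fun t => hcomp t _ (by
      unfold hh
      have h2 := sq_nonneg ‖(deriv Γ t).1‖
      have h3 := sq_nonneg ‖(deriv Γ t).2.2 - ((Γ t).1.re : ℂ) * (deriv Γ t).2.1 -
        ((Γ t).2.1.im : ℂ) * Complex.I * (deriv Γ t).1‖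
      linarith)
    have n3 : ∀ t, ‖(deriv Γ t).2.2 - ((Γ t).1.re : ℂ) * (deriv Γ t).2.1 -
        ((Γ t).2.1.im : ℂ) * Complex.I * (deriv Γ t).1‖ ≤ 2 * F t := fun t => hcomp t _ (by
      unfold hh
      have h2 := sq_nonneg ‖(deriv Γ t).1‖
      have h3 := sq_nonneg ‖(deriv Γ t).2.1‖
      linarith)
    have l1 : Tendsto (fun s => (Γ s).1) atTop (𝓝 (limUnder atTop (fun s => (Γ s).1))) :=
      tendsto_limUnder_of_hasDerivAt_of_integrableOn_Ioi (a := 0) (fun t _ => ha t)
        (int_of_le hmeas.fst le_rfl hint 2 (fun t _ => n1 t))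
    have l2 : Tendsto (fun s => (Γ s).2.1) atTop (𝓝 (limUnder atTop (fun s => (Γ s).2.1))) :=
      tendsto_limUnder_of_hasDerivAt_of_integrableOn_Ioi (a := 0) (fun t _ => hb' t)
        (int_of_le hmeas.snd.fst le_rfl hint 2 (fun t _ => n2 t))
    set A := ‖limUnder atTop (fun s => (Γ s).1)‖ + 1 with hA
    set B := ‖limUnder atTop (fun s => (Γ s).2.1)‖ + 1 with hB
    have b1 : ∀ᶠ t in atTop, ‖(Γ t).1‖ < A := l1.norm.eventually (gt_mem_nhds (by linarith))
    have b2 : ∀ᶠ t in atTop, ‖(Γ t).2.1‖ < B := l2.norm.eventually (gt_mem_nhds (by linarith))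
    obtain ⟨T0, hT0⟩ := eventually_atTop.1 (b1.and b2)
    set T := max T0 0 with hT
    have n4 : ∀ t, T < t → ‖(deriv Γ t).2.2‖ ≤ (2 + 2 * A + 2 * B) * F t := by
      intro t ht
      obtain ⟨c1, c2⟩ := hT0 t ((le_max_left _ _).trans ht.le)
      have e : (deriv Γ t).2.2 = ((deriv Γ t).2.2 - ((Γ t).1.re : ℂ) * (deriv Γ t).2.1 -
        ((Γ t).2.1.im : ℂ) * Complex.I * (deriv Γ t).1) + ((Γ t).1.re : ℂ) * (deriv Γ t).2.1 +
        ((Γ t).2.1.im : ℂ) * Complex.I * (deriv Γ t).1 := by ring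
      have m1 : ‖((Γ t).1.re : ℂ) * (deriv Γ t).2.1‖ ≤ A * (2 * F t) := by
        rw [norm_mul, Complex.norm_real, Real.norm_eq_abs]
        exact mul_le_mul ((Complex.abs_re_le_norm _).trans c1.le) (n2 t) (norm_nonneg _)
          (by positivity)
      have m2 : ‖((Γ t).2.1.im : ℂ) * Complex.I * (deriv Γ t).1‖ ≤ B * (2 * F t) := by
        rw [norm_mul, norm_mul, Complex.norm_real, Real.norm_eq_abs, Complex.norm_I, mul_one]
        exact mul_le_mul ((Complex.abs_im_le_norm _).trans c2.le) (n1 t) (norm_nonneg _)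
          (by positivity)
      rw [e]
      refine (norm_add_le _ _).trans ?_
      refine (add_le_add_left (norm_add_le _ _) _).trans ?_
      linarith [n3 t]
    have l3 : Tendsto (fun s => (Γ s).2.2) atTop (𝓝 (limUnder atTop (fun s => (Γ s).2.2))) :=
      tendsto_limUnder_of_hasDerivAt_of_integrableOn_Ioi (a := T) (fun t _ => hc t)
        (int_of_le hmeas.snd.snd (le_max_right _ _) hint _ n4)
    refine ⟨pr (limUnder atTop (fun s => (Γ s).1), limUnder atTop (fun s => (Γ s).2.1),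
      limUnder atTop (fun s => (Γ s).2.2)), ?_⟩
    have l4 : Tendsto (fun s => Γ s) atTop (𝓝 (limUnder atTop (fun s => (Γ s).1),
      limUnder atTop (fun s => (Γ s).2.1), limUnder atTop (fun s => (Γ s).2.2))) :=
      l1.prodMk_nhds (l2.prodMk_nhds l3)
    have l5 := (hpr.continuous.tendsto _).comp l4
    refine l5.congr fun t => hΓ' t

end

end Pool.Agent.H953R2.EC
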