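import Pool.Agent.H953R2.EC.Man

/-! Closed punctured lines on the quotient. -/

set_option autoImplicit false

open scoped Manifold ContDiff
open Set Filter Topology

namespace Pool.Agent.H953R2.EC

noncomputable section

lemma contMDiff_pr : ContMDiff 𝓘(ℂ, C3) 𝓘(ℂ, C3) ω pr := by
  intro z
  rw [contMDiffAt_iff]
  refine ⟨hpr.continuous.continuousAt, ?_⟩
  simp only [mfld_simps]
  have hz : pr z ∈ (LI hpr (lf (pr z))).source := by
    have := mem_LI_source hpr (lf (pr z))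
    rwa [pr_lf] at this
  obtain ⟨g, hg⟩ := chart_p hpr (lf (pr z)) z hz
  have h1 : ContDiffAt ℂ ω (fun z' => LI hpr (lf (pr z)) (pr z')) z :=
    (contDiff_smul g).contDiffAt.congr_of_eventuallyEq hg
  exact h1.contDiffWithinAt

/-- `2πi` -/
abbrev tpi : ℂ := 2 * Real.pi * Complex.I

lemma tpi_ne : tpi ≠ 0 := Complex.two_pi_I_ne_zero

section curve

variable (F : ℂ → C3) (hF : ContDiff ℂ ω F) (hper : ∀ (τ : ℂ) (k : ℤ), ∃ g : Hz, F (τ + k) = g • F τ)

/-- the curve `w ↦ [F (log w / 2πi)]` -/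
def crv (w : ℂˣ) : HX := pr (F (Complex.log w / tpi))

include hper in
lemma crv_eq (w : ℂˣ) (τ : ℂ) (h : Complex.exp (tpi * τ) = w) : crv F w = pr (F τ) := by
  have h1 : Complex.exp (Complex.log w) = Complex.exp (tpi * τ) := by
    rw [h, Complex.exp_log w.ne_zero]
  obtain ⟨n, hn⟩ := Complex.exp_eq_exp_iff_exists_int.1 h1
  have h2 : Complex.log w / tpi = τ + n := by
    rw [hn]
    field_simp
  obtain ⟨g, hg⟩ := hper τ n
  unfold crv
  rw [h2, hg, hpr.map_smul]

include hF hper in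
lemma contMDiff_crv : ContMDiff 𝓘(ℂ, ℂ) 𝓘(ℂ, C3) ω (crv F) := by
  intro w0
  -- a local branch of the logarithm
  let L : ℂ → ℂ := fun w => (Complex.log (w / w0) + Complex.log w0) / tpi
  have hL : ContDiffAt ℂ ω L (w0 : ℂ) := by
    have h1 : ContDiffAt ℂ ω (fun w : ℂ => w / w0) (w0 : ℂ) := contDiffAt_id.div_const _
    have h2 : ((w0 : ℂ) / w0) ∈ Complex.slitPlane := by
      rw [div_self w0.ne_zero]
      exact Complex.one_mem_slitPlane
    have h3 : ContDiffAt ℂ ω (fun w : ℂ => Complex.log (w / w0)) (w0 : ℂ) :=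
      ContDiffAt.comp (g := Complex.log) (f := fun w : ℂ => w / w0) (w0 : ℂ)
        (Complex.contDiffAt_log h2) h1
    exact (h3.add contDiffAt_const).div_const _
  have heq : ∀ w : ℂˣ, crv F w = pr (F (L w)) := by
    intro w
    apply crv_eq F hper
    change Complex.exp (tpi * ((Complex.log (w / w0) + Complex.log w0) / tpi)) = w
    rw [mul_div_cancel₀ _ tpi_ne, Complex.exp_add, Complex.exp_log (div_ne_zero w.ne_zero
      w0.ne_zero), Complex.exp_log w0.ne_zero, div_mul_cancel₀ _ w0.ne_zero]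
  have h3 : crv F = pr ∘ (F ∘ L) ∘ (Units.val : ℂˣ → ℂ) := funext heq
  rw [h3]
  have h4 : ContMDiffAt 𝓘(ℂ, ℂ) 𝓘(ℂ, C3) ω (F ∘ L) (w0 : ℂ) :=
    (hF.contDiffAt.comp (w0 : ℂ) hL).contMDiffAt
  have h5 : ContMDiffAt 𝓘(ℂ, ℂ) 𝓘(ℂ, ℂ) ω (Units.val : ℂˣ → ℂ) w0 :=
    Units.contMDiff_val.contMDiffAt
  exact contMDiff_pr.contMDiffAt.comp w0 (h4.comp w0 h5)

include hF hper in
/-- If there is an equivariant function which restricts to the parameter on the curve, the curve is
a closed punctured line. -/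
lemma closed_crv (ρ : C3 → ℂˣ) (hρ : Continuous ρ) (hinv : ∀ (g : Hz) z, ρ (g • z) = ρ z)
    (hρF : ∀ τ, ((ρ (F τ) : ℂˣ) : ℂ) = Complex.exp (tpi * τ)) :
    IsClosedPuncturedLine C3 (range (crv F)) := by
  refine ⟨crv F, contMDiff_crv F hF hper, ?_, rfl⟩
  let r : HX → ℂˣ := fun x => ρ (lf x)
  have hr : ∀ z, r (pr z) = ρ z := by
    intro z
    have h : pr (lf (pr z)) = pr z := pr_lf _
    obtain ⟨g, hg⟩ := hpr.apply_eq_iff_mem_orbit.1 h
    have hg' : g • z = lf (pr z) := hg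
    change ρ (lf (pr z)) = ρ z
    rw [← hg', hinv]
  have hrc : Continuous r := by
    rw [hpr.continuous_iff]
    have : r ∘ pr = ρ := funext hr
    rw [this]
    exact hρ
  have hleft : Function.LeftInverse r (crv F) := by
    intro w
    apply Units.ext
    unfold crv
    rw [hr, hρF, mul_div_cancel₀ _ tpi_ne, Complex.exp_log w.ne_zero]
  exact hleft.isClosedEmbedding hrc (contMDiff_crv F hF hper).continuous

include hper in
lemma mem_range_crv (τ : ℂ) : pr (F τ) ∈ range (crv F) :=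
  ⟨Units.mk0 (Complex.exp (tpi * τ)) (Complex.exp_ne_zero _), crv_eq F hper _ τ rfl⟩

end curve

/-- the exponential as a unit -/
def expU (z : ℂ) : ℂˣ := Units.mk0 (Complex.exp z) (Complex.exp_ne_zero _)

lemma continuous_expU : Continuous expU := by
  rw [Units.continuous_iff]
  constructor
  · exact Complex.continuous_exp
  · have : (fun z => (((expU z)⁻¹ : ℂˣ) : ℂ)) = fun z => Complex.exp (-z) := by
      funext z
      rw [Units.val_inv_eq_inv_val, Complex.exp_neg]
      rfl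
    rw [this]
    fun_prop

/-- the curves in the `a`-direction -/
def Fa (a b c τ : ℂ) : C3 := (a + τ, b, c + τ * b)

/-- the curves in the `b`-direction -/
def Fb (a b c τ : ℂ) : C3 := (a, b + τ, c)

lemma contDiff_Fa (a b c : ℂ) : ContDiff ℂ ω (Fa a b c) := by
  unfold Fa
  fun_prop

lemma contDiff_Fb (a b c : ℂ) : ContDiff ℂ ω (Fb a b c) := by
  unfold Fb
  fun_prop

lemma per_Fa (a b c : ℂ) (τ : ℂ) (k : ℤ) : ∃ g : Hz, Fa a b c (τ + k) = g • Fa a b c τ :=
  ⟨⟨k, 0, 0⟩, by simp [Fa, Hz.smul_def]; constructor <;> ring⟩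

lemma per_Fb (a b c : ℂ) (τ : ℂ) (k : ℤ) : ∃ g : Hz, Fb a b c (τ + k) = g • Fb a b c τ :=
  ⟨⟨0, k, 0⟩, by simp [Fb, Hz.smul_def]; ring⟩

lemma closed_Fa (a b c : ℂ) : IsClosedPuncturedLine C3 (range (crv (Fa a b c))) := by
  apply closed_crv _ (contDiff_Fa a b c) (per_Fa a b c)
    (fun z => expU (tpi * (z.1 - a)))
  · exact continuous_expU.comp (by fun_prop)
  · intro g z
    apply Units.ext
    change Complex.exp (tpi * (z.1 + g.m - a)) = Complex.exp (tpi * (z.1 - a))
    rw [Complex.exp_eq_exp_iff_exists_int]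
    exact ⟨g.m, by ring⟩
  · intro τ
    change Complex.exp (tpi * (a + τ - a)) = _
    congr 1
    ring

lemma closed_Fb (a b c : ℂ) : IsClosedPuncturedLine C3 (range (crv (Fb a b c))) := by
  apply closed_crv _ (contDiff_Fb a b c) (per_Fb a b c)
    (fun z => expU (tpi * (z.2.1 - b)))
  · exact continuous_expU.comp (by fun_prop)
  · intro g z
    apply Units.ext
    change Complex.exp (tpi * (z.2.1 + g.n - b)) = Complex.exp (tpi * (z.2.1 - b))
    rw [Complex.exp_eq_exp_iff_exists_int]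
    exact ⟨g.n, by ring⟩
  · intro τ
    change Complex.exp (tpi * (b + τ - b)) = _
    congr 1
    ring

lemma chain_aux (a b c a' b' c' : ℂ) (h : a ≠ a') : ∃ Z₁ Z₂ Z₃ : Set HX,
    IsClosedPuncturedLine C3 Z₁ ∧ IsClosedPuncturedLine C3 Z₂ ∧
    IsClosedPuncturedLine C3 Z₃ ∧ pr (a, b, c) ∈ Z₁ ∧ (Z₁ ∩ Z₂).Nonempty ∧ (Z₂ ∩ Z₃).Nonempty ∧
    pr (a', b', c') ∈ Z₃ := by
  have h' : a' - a ≠ 0 := sub_ne_zero.2 h.symm
  set b1 := (c' - c) / (a' - a) with hb1
  refine ⟨_, _, _, closed_Fb a b c, closed_Fa a b1 c, closed_Fb a' b1 c', ?_, ?_, ?_, ?_⟩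
  · have := mem_range_crv (Fb a b c) (per_Fb a b c) 0
    simpa [Fb] using this
  · refine ⟨pr (a, b1, c), ?_, ?_⟩
    · have := mem_range_crv (Fb a b c) (per_Fb a b c) (b1 - b)
      simpa [Fb] using this
    · have := mem_range_crv (Fa a b1 c) (per_Fa a b1 c) 0
      simpa [Fa] using this
  · refine ⟨pr (a', b1, c'), ?_, ?_⟩
    · have := mem_range_crv (Fa a b1 c) (per_Fa a b1 c) (a' - a)
      have e : Fa a b1 c (a' - a) = (a', b1, c') := by
        unfold Fa
        rw [hb1, mul_div_cancel₀ _ h']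
        simp
      rwa [e] at this
    · have := mem_range_crv (Fb a' b1 c') (per_Fb a' b1 c') 0
      simpa [Fb] using this
  · have := mem_range_crv (Fb a' b1 c') (per_Fb a' b1 c') (b' - b1)
    simpa [Fb] using this

theorem chain_HX : ChainConnected C3 HX := by
  intro x y
  obtain ⟨⟨a, b, c⟩, rfl⟩ := hpr.surjective x
  obtain ⟨⟨a', b', c'⟩, rfl⟩ := hpr.surjective y
  by_cases h : a = a'
  · have h1 : pr (a', b', c') = pr (a' + 1, b', c' + b') := by
      have h2 : ((a' + 1, b', c' + b') : C3) = (⟨1, 0, 0⟩ : Hz) • ((a', b', c') : C3) := by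
        simp [Hz.smul_def]
      rw [h2, hpr.map_smul]
    rw [h1]
    apply chain_aux
    rw [h]
    intro h2
    simp at h2
  · exact chain_aux a b c a' b' c' h

/-- the fundamental group -/
theorem fund_HX (x : HX) : ¬ AlmostAbelian (FundamentalGroup HX x) := by
  have hs : SimplyConnectedSpace C3 := inferInstance
  exact not_almostAbelian _ (hpr.fundamentalGroupEquiv (⟨lf x, pr_lf x⟩ : pr ⁻¹' {x}))

end

end Pool.Agent.H953R2.EC
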