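import Mathlib

/-!
Complete Kaehler potentials on complex manifolds, closed curves isomorphic to the punctured line,
and almost abelian groups.
-/

set_option autoImplicit false

open scoped Manifold ContDiff
open Set Filter Topology MeasureTheory

namespace Pool.Agent.H953R2.EC

noncomputable section

section levi

variable {E : Type} [NormedAddCommGroup E] [NormedSpace ℂ E]

/-- The Levi form of the real function `φ` on `E` at `z` in the direction `v`: one quarter of the
Laplacian at `0` of the function `τ ↦ φ (z + τ v)` of the complex variable `τ`, that is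
`∑ ∂²φ/∂z_i∂z̄_j v_i v̄_j`. -/
def leviCoord (φ : E → ℝ) (z v : E) : ℝ :=
  (iteratedDeriv 2 (fun t : ℝ => φ (z + (t : ℂ) • v)) 0 +
    iteratedDeriv 2 (fun t : ℝ => φ (z + ((t : ℂ) * Complex.I) • v)) 0) / 4

variable {X : Type} [TopologicalSpace X] [ChartedSpace E X]

/-- The Levi form of the real function `φ` on the complex manifold `X` at the point `x`, in the
coordinates given by the preferred chart at `x`. -/
def levi (φ : X → ℝ) (x : X) (v : E) : ℝ :=
  leviCoord (fun w => φ ((chartAt E x).symm w)) (chartAt E x x) v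

/-- The velocity of the curve `γ` at the time `t`, in the coordinates given by the preferred chart
at `γ t`. -/
def velocity (γ : ℝ → X) (t : ℝ) : E := deriv (fun s => chartAt E (γ t) (γ s)) t

/-- `φ` is a potential of a complete Kaehler metric on the complex manifold `X`: it is smooth, its
Levi form is positive definite, so that it defines the Kaehler metric with fundamental form
`i ∂∂̄φ`, and this metric is complete: every curve `γ` of class `C¹` whose restriction to `[0, ∞)`
has finite length has a limit at infinity. -/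
structure IsCompleteKahlerPotential (φ : X → ℝ) : Prop where
  smooth : ContMDiff 𝓘(ℝ, E) 𝓘(ℝ, ℝ) ∞ φ
  pos : ∀ (x : X) (v : E), v ≠ 0 → 0 < levi φ x v
  complete : ∀ γ : ℝ → X, ContMDiff 𝓘(ℝ, ℝ) 𝓘(ℝ, E) 1 γ →
    IntegrableOn (fun t => √(levi φ (γ t) (velocity (E := E) γ t))) (Ici 0) →
      ∃ x, Tendsto γ atTop (𝓝 x)

variable (E) in
/-- `Z` is the image of a holomorphic map from the punctured complex line `ℂˣ` to `X` which is an
embedding of topological spaces with closed image. -/
def IsClosedPuncturedLine (Z : Set X) : Prop :=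
  ∃ f : ℂˣ → X, ContMDiff 𝓘(ℂ, ℂ) 𝓘(ℂ, E) ω f ∧ IsClosedEmbedding f ∧ range f = Z

variable (E X) in
/-- Any two points of `X` are joined by a chain of three closed punctured lines. -/
def ChainConnected : Prop :=
  ∀ x y : X, ∃ Z₁ Z₂ Z₃ : Set X, IsClosedPuncturedLine E Z₁ ∧ IsClosedPuncturedLine E Z₂ ∧
    IsClosedPuncturedLine E Z₃ ∧ x ∈ Z₁ ∧ (Z₁ ∩ Z₂).Nonempty ∧ (Z₂ ∩ Z₃).Nonempty ∧ y ∈ Z₃

end levi

/-- The group `G` is almost abelian: it has an abelian subgroup of finite index. -/
def AlmostAbelian (G : Type) [Group G] : Prop :=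
  ∃ H : Subgroup G, H.FiniteIndex ∧ ∀ a ∈ H, ∀ b ∈ H, a * b = b * a

end

end Pool.Agent.H953R2.EC
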