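import Pool.Agent.H953R2.EC.Defs

/-! The integral Heisenberg group acting on complex 3-space. -/

set_option autoImplicit false

open Set Filter Topology

namespace Pool.Agent.H953R2.EC

/-- complex 3-space -/
abbrev C3 : Type := ℂ × ℂ × ℂ

/-- The integral Heisenberg group. -/
@[ext] structure Hz where
  m : ℤ
  n : ℤ
  l : ℤ

namespace Hz

instance : Mul Hz := ⟨fun g h => ⟨g.m + h.m, g.n + h.n, g.l + h.l + g.m * h.n⟩⟩
instance : One Hz := ⟨⟨0, 0, 0⟩⟩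
instance : Inv Hz := ⟨fun g => ⟨-g.m, -g.n, -g.l + g.m * g.n⟩⟩

@[simp] lemma mul_m (g h : Hz) : (g * h).m = g.m + h.m := rfl
@[simp] lemma mul_n (g h : Hz) : (g * h).n = g.n + h.n := rfl
@[simp] lemma mul_l (g h : Hz) : (g * h).l = g.l + h.l + g.m * h.n := rfl
@[simp] lemma one_m : (1 : Hz).m = 0 := rfl
@[simp] lemma one_n : (1 : Hz).n = 0 := rfl
@[simp] lemma one_l : (1 : Hz).l = 0 := rfl
@[simp] lemma inv_m (g : Hz) : (g⁻¹).m = -g.m := rfl
@[simp] lemma inv_n (g : Hz) : (g⁻¹).n = -g.n := rfl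
@[simp] lemma inv_l (g : Hz) : (g⁻¹).l = -g.l + g.m * g.n := rfl

instance : Group Hz where
  mul_assoc a b c := by ext <;> simp <;> ring
  one_mul a := by ext <;> simp
  mul_one a := by ext <;> simp
  inv_mul_cancel a := by ext <;> simp

/-- the action on complex 3-space -/
instance : MulAction Hz C3 where
  smul g z := (z.1 + g.m, z.2.1 + g.n, z.2.2 + g.l + g.m * z.2.1)
  one_smul z := by
    change (z.1 + ((0 : ℤ) : ℂ), z.2.1 + ((0 : ℤ) : ℂ), z.2.2 + ((0 : ℤ) : ℂ) +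
      ((0 : ℤ) : ℂ) * z.2.1) = z
    simp
  mul_smul g h z := by
    change (z.1 + ((g.m + h.m : ℤ) : ℂ), z.2.1 + ((g.n + h.n : ℤ) : ℂ),
      z.2.2 + ((g.l + h.l + g.m * h.n : ℤ) : ℂ) + ((g.m + h.m : ℤ) : ℂ) * z.2.1) =
      (z.1 + (h.m : ℂ) + (g.m : ℂ), z.2.1 + (h.n : ℂ) + (g.n : ℂ),
        z.2.2 + (h.l : ℂ) + (h.m : ℂ) * z.2.1 + (g.l : ℂ) + (g.m : ℂ) * (z.2.1 + (h.n : ℂ)))
    push_cast
    ext <;> simp <;> ring

lemma smul_def (g : Hz) (z : C3) :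
    g • z = (z.1 + (g.m : ℂ), z.2.1 + (g.n : ℂ), z.2.2 + (g.l : ℂ) + (g.m : ℂ) * z.2.1) := rfl

instance : ContinuousConstSMul Hz C3 where
  continuous_const_smul g := by
    simp only [smul_def]
    fun_prop

instance : IsCancelSMul Hz C3 := by
  rw [isCancelSMul_iff_eq_one_of_smul_eq]
  intro g z h
  rw [smul_def, Prod.ext_iff, Prod.ext_iff] at h
  obtain ⟨h1, h2, h3⟩ := h
  simp only at h1 h2 h3
  have e1 : (g.m : ℂ) = 0 := by linear_combination h1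
  have e2 : (g.n : ℂ) = 0 := by linear_combination h2
  have e3 : (g.l : ℂ) = 0 := by
    rw [e1] at h3
    linear_combination h3
  ext
  · exact_mod_cast e1
  · exact_mod_cast e2
  · exact_mod_cast e3

lemma abs_le_of_norm {m : ℤ} {R : ℝ} (h : ‖(m : ℂ)‖ ≤ R) : m ∈ Set.Icc (-⌈R⌉) ⌈R⌉ := by
  rw [Complex.norm_intCast] at h
  have h1 : ((|m| : ℤ) : ℝ) ≤ R := by rw [Int.cast_abs]; exact h
  have h2 : |m| ≤ ⌈R⌉ := by exact_mod_cast h1.trans (Int.le_ceil R)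
  exact abs_le.1 h2

instance : ProperlyDiscontinuousSMul Hz C3 where
  finite_disjoint_inter_image := by
    intro K L hK hL
    obtain ⟨R, hR⟩ := hK.isBounded.subset_closedBall 0
    obtain ⟨S, hS⟩ := hL.isBounded.subset_closedBall 0
    have hfin : ((Set.Icc (-⌈R + S⌉) ⌈R + S⌉) ×ˢ ((Set.Icc (-⌈R + S⌉) ⌈R + S⌉) ×ˢ
        (Set.Icc (-⌈R + S + (R + S) * R⌉) ⌈R + S + (R + S) * R⌉)) : Set (ℤ × ℤ × ℤ)).Finite :=
      (Set.finite_Icc _ _).prod ((Set.finite_Icc _ _).prod (Set.finite_Icc _ _))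
    refine (hfin.preimage (f := fun g : Hz => (g.m, g.n, g.l)) ?_).subset ?_
    · intro a _ b _ h
      simp only [Prod.mk.injEq] at h
      ext
      · exact h.1
      · exact h.2.1
      · exact h.2.2
    · rintro g ⟨w, ⟨z, hz, rfl⟩, hw⟩
      have hz' := hR hz
      have hw' := hS hw
      rw [mem_closedBall_zero_iff] at hz' hw'
      simp only [smul_def, Prod.norm_def, max_le_iff] at hz' hw'
      obtain ⟨z1, z2, z3⟩ := hz'
      obtain ⟨w1, w2, w3⟩ := hw'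
      have e1 : ‖(g.m : ℂ)‖ ≤ R + S := by
        have : (g.m : ℂ) = (z.1 + (g.m : ℂ)) - z.1 := by ring
        rw [this]
        exact (norm_sub_le _ _).trans (by linarith)
      have e2 : ‖(g.n : ℂ)‖ ≤ R + S := by
        have : (g.n : ℂ) = (z.2.1 + (g.n : ℂ)) - z.2.1 := by ring
        rw [this]
        exact (norm_sub_le _ _).trans (by linarith)
      have hR0 : 0 ≤ R := (norm_nonneg _).trans z1
      have e3 : ‖(g.l : ℂ)‖ ≤ R + S + (R + S) * R := by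
        have : (g.l : ℂ) = (z.2.2 + (g.l : ℂ) + (g.m : ℂ) * z.2.1) - z.2.2 -
          (g.m : ℂ) * z.2.1 := by ring
        rw [this]
        have h1 : ‖(g.m : ℂ) * z.2.1‖ ≤ (R + S) * R := by
          rw [norm_mul]
          exact mul_le_mul e1 z2 (norm_nonneg _) ((norm_nonneg _).trans e1)
        have h2 := norm_sub_le ((z.2.2 + (g.l : ℂ) + (g.m : ℂ) * z.2.1) - z.2.2)
          ((g.m : ℂ) * z.2.1)
        have h3 := norm_sub_le (z.2.2 + (g.l : ℂ) + (g.m : ℂ) * z.2.1) z.2.2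
        linarith
      exact ⟨abs_le_of_norm e1, abs_le_of_norm e2, abs_le_of_norm e3⟩

/-- the two generators do not have commuting powers -/
lemma pow_x (N : ℕ) : (⟨1, 0, 0⟩ : Hz) ^ N = ⟨N, 0, 0⟩ := by
  induction N with
  | zero => rfl
  | succ N ih => rw [pow_succ, ih]; ext <;> simp

lemma pow_y (N : ℕ) : (⟨0, 1, 0⟩ : Hz) ^ N = ⟨0, N, 0⟩ := by
  induction N with
  | zero => rfl
  | succ N ih => rw [pow_succ, ih]; ext <;> simp

lemma not_commute {N M : ℕ} (hN : 0 < N) (hM : 0 < M) :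
    (⟨1, 0, 0⟩ : Hz) ^ N * (⟨0, 1, 0⟩ : Hz) ^ M ≠ (⟨0, 1, 0⟩ : Hz) ^ M * (⟨1, 0, 0⟩ : Hz) ^ N := by
  rw [pow_x, pow_y]
  intro h
  have h1 := congrArg Hz.l h
  simp at h1
  omega

end Hz

lemma not_almostAbelian (G : Type) [Group G] (e : G ≃* Hzᵐᵒᵖ) : ¬ AlmostAbelian G := by
  rintro ⟨H, hH, hc⟩
  set u := e.symm (MulOpposite.op ⟨1, 0, 0⟩) with hu
  set v := e.symm (MulOpposite.op ⟨0, 1, 0⟩) with hv
  obtain ⟨N, hN, -, hN2⟩ := Subgroup.exists_pow_mem_of_index_ne_zero hH.index_ne_zero u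
  obtain ⟨M, hM, -, hM2⟩ := Subgroup.exists_pow_mem_of_index_ne_zero hH.index_ne_zero v
  have h1 := congrArg e (hc _ hN2 _ hM2)
  rw [map_mul, map_mul, map_pow, map_pow, hu, hv, MulEquiv.apply_symm_apply,
    MulEquiv.apply_symm_apply, ← MulOpposite.op_pow, ← MulOpposite.op_pow, ← MulOpposite.op_mul,
    ← MulOpposite.op_mul] at h1
  exact Hz.not_commute hN hM (MulOpposite.op_injective h1).symm

end Pool.Agent.H953R2.EC
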