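import Pool.Agent.H953R2.EC.Quot
import Pool.Agent.H953R2.EC.Calc

/-! The quotient manifold and its complete Kaehler metric. -/

set_option autoImplicit false

open scoped Manifold ContDiff
open Set Filter Topology MeasureTheory

namespace Pool.Agent.H953R2.EC

noncomputable section

/-- The quotient of complex 3-space by the integral Heisenberg group. -/
def HX : Type := Quotient (MulAction.orbitRel Hz C3)

instance : TopologicalSpace HX := inferInstanceAs (TopologicalSpace (Quotient _))

/-- the covering map -/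
def pr : C3 → HX := Quotient.mk _

lemma hpr : IsQuotientCoveringMap pr Hz := isQuotientCoveringMap_quotientMk_of_properlyDiscontinuousSMul

instance : T2Space HX :=
  inferInstanceAs (T2Space (Quotient (MulAction.orbitRel Hz C3)))

instance : SecondCountableTopology HX :=
  ContinuousConstSMul.secondCountableTopology (Γ := Hz) (T := C3)

instance : ConnectedSpace HX := by
  have h : ConnectedSpace C3 := inferInstance
  exact hpr.surjective.connectedSpace hpr.continuous

instance : ChartedSpace C3 HX := quotCS hpr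

lemma contDiff_smul (g : Hz) : ContDiff ℂ ω (fun z : C3 => g • z) := by
  simp only [Hz.smul_def]
  have h1 : ContDiff ℂ ω (fun z : C3 => z.1) := contDiff_fst
  have h2 : ContDiff ℂ ω (fun z : C3 => z.2.1) := contDiff_fst.comp contDiff_snd
  have h3 : ContDiff ℂ ω (fun z : C3 => z.2.2) := contDiff_snd.comp contDiff_snd
  exact (h1.add contDiff_const).prodMk ((h2.add contDiff_const).prodMk
    ((h3.add contDiff_const).add (contDiff_const.mul h2)))

instance : IsManifold 𝓘(ℂ, C3) ω HX := quot_isManifold hpr contDiff_smul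

/-- the chosen lift -/
def lf (x : HX) : C3 := lft hpr x

lemma pr_lf (x : HX) : pr (lf x) = x := p_lft hpr x

lemma chartAt_eq (x : HX) : chartAt C3 x = LI hpr (lf x) := rfl

lemma chartAt_self (x : HX) : chartAt C3 x x = lf x := by
  rw [chartAt_eq]
  have := LI_self hpr (lf x)
  rwa [pr_lf] at this

lemma chartAt_symm (x : HX) : ⇑(chartAt C3 x).symm = pr := by
  rw [chartAt_eq, LI_symm]

/-- the potential on the quotient -/
def potX (x : HX) : ℝ := pot (lf x)

lemma potX_pr (z : C3) : potX (pr z) = pot z := by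
  unfold potX
  have h : pr (lf (pr z)) = pr z := pr_lf _
  obtain ⟨g, hg⟩ := hpr.apply_eq_iff_mem_orbit.1 h
  have hg' : g • z = lf (pr z) := hg
  rw [← hg', pot_smul]

lemma levi_potX (x : HX) (v : C3) : levi potX x v = leviCoord pot (lf x) v := by
  unfold levi
  rw [chartAt_symm, chartAt_self]
  simp only [potX_pr]

lemma smooth_potX : ContMDiff 𝓘(ℝ, C3) 𝓘(ℝ, ℝ) ∞ potX := by
  intro x
  rw [contMDiffAt_iff]
  constructor
  · have h : Continuous potX := by
      rw [hpr.continuous_iff]
      have : potX ∘ pr = pot := funext potX_pr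
      rw [this]
      exact contDiff_pot.continuous
    exact h.continuousAt
  · simp only [mfld_simps]
    rw [chartAt_symm]
    have : potX ∘ pr = pot := funext potX_pr
    rw [this]
    exact contDiff_pot.contDiffAt.contDiffWithinAt

/-- differentiability of the lift of a curve and its velocity -/
lemma lift_deriv (γ : ℝ → HX) (hγ : ContMDiff 𝓘(ℝ, ℝ) 𝓘(ℝ, C3) 1 γ) (Γ : ℝ → C3)
    (hΓ : Continuous Γ) (h : ∀ t, pr (Γ t) = γ t) (t : ℝ) :
    DifferentiableAt ℝ Γ t ∧
      hh (Γ t) (deriv Γ t) = hh (lf (γ t)) (velocity (E := C3) γ t) := by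
  have h1 : ContDiffAt ℝ 1 (fun s => chartAt C3 (γ t) (γ s)) t := by
    have h2 := (contMDiffAt_iff.1 (hγ t)).2
    simp only [mfld_simps] at h2
    exact h2.contDiffAt univ_mem
  have hz : pr (Γ t) ∈ (LI hpr (lf (γ t))).source := by
    rw [h t]
    have := mem_LI_source hpr (lf (γ t))
    rwa [pr_lf] at this
  obtain ⟨g, hg⟩ := chart_p hpr (lf (γ t)) (Γ t) hz
  have h3 : ∀ᶠ s in 𝓝 t, chartAt C3 (γ t) (γ s) = g • Γ s := by
    have := hΓ.continuousAt.eventually hg
    filter_upwards [this] with s hs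
    rw [← h s]
    exact hs
  have h4 : ∀ᶠ s in 𝓝 t, Γ s = g⁻¹ • chartAt C3 (γ t) (γ s) := by
    filter_upwards [h3] with s hs
    rw [hs, inv_smul_smul]
  have hd : DifferentiableAt ℝ Γ t := by
    have h5 : ContDiffAt ℝ 1 (fun s => g⁻¹ • chartAt C3 (γ t) (γ s)) t :=
      (((contDiff_smul g⁻¹).restrict_scalars ℝ).of_le le_top).contDiffAt.comp t h1
    exact (h5.congr_of_eventuallyEq h4).differentiableAt one_ne_zero
  refine ⟨hd, ?_⟩
  have h6 : lf (γ t) = g • Γ t := by
    rw [← h3.self_of_nhds, chartAt_self]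
  have h7 : velocity (E := C3) γ t = ((deriv Γ t).1, (deriv Γ t).2.1,
      (deriv Γ t).2.2 + (g.m : ℂ) * (deriv Γ t).2.1) := by
    unfold velocity
    rw [Filter.EventuallyEq.deriv_eq h3]
    have e1 : HasDerivAt (fun s => (Γ s).1) (deriv Γ t).1 t := hd.hasDerivAt.fst
    have e2 : HasDerivAt (fun s => (Γ s).2.1) (deriv Γ t).2.1 t := hd.hasDerivAt.snd.fst
    have e3 : HasDerivAt (fun s => (Γ s).2.2) (deriv Γ t).2.2 t := hd.hasDerivAt.snd.snd
    have e4 := (e1.add_const (g.m : ℂ)).prodMk ((e2.add_const (g.n : ℂ)).prodMk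
      ((e3.add_const (g.l : ℂ)).add (e2.const_mul (g.m : ℂ))))
    exact e4.deriv
  rw [h7, h6, hh_smul]

end

end Pool.Agent.H953R2.EC
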