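import Pool.Agent.H953R2.EC.Heis

/-! Quotients by free properly discontinuous holomorphic group actions as complex manifolds. -/

set_option autoImplicit false

open scoped Manifold ContDiff
open Set Filter Topology

namespace Pool.Agent.H953R2.EC

noncomputable section

variable {E : Type} [NormedAddCommGroup E] [NormedSpace ℂ E] {G : Type} [Group G] [MulAction G E]
  {X : Type} [TopologicalSpace X] {p : E → X}

set_option linter.unusedSectionVars false

/-- the local inverse of the covering map at `a` -/
def LI (hp : IsQuotientCoveringMap p G) (a : E) : OpenPartialHomeomorph X E :=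
  hp.isCoveringMap.isLocalHomeomorph.localInverseAt a

variable (hp : IsQuotientCoveringMap p G)

lemma LI_symm (a : E) : ⇑(LI hp a).symm = p :=
  hp.isCoveringMap.isLocalHomeomorph.localInverseAt_symm a

lemma mem_LI_source (a : E) : p a ∈ (LI hp a).source :=
  hp.isCoveringMap.isLocalHomeomorph.apply_self_mem_localInverseAt_source

lemma mem_LI_target (a : E) : a ∈ (LI hp a).target :=
  hp.isCoveringMap.isLocalHomeomorph.self_mem_localInverseAt_target

lemma LI_self (a : E) : LI hp a (p a) = a :=
  hp.isCoveringMap.isLocalHomeomorph.localInverseAt_apply_self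

lemma p_LI (a : E) {x : X} (hx : x ∈ (LI hp a).source) : p (LI hp a x) = x :=
  hp.isCoveringMap.isLocalHomeomorph.apply_localInverseAt_of_mem hx

lemma LI_p (a : E) {z : E} (hz : z ∈ (LI hp a).target) : LI hp a (p z) = z := by
  have := (LI hp a).right_inv hz
  rwa [LI_symm] at this

/-- In a chart the covering map is locally given by an element of the group. -/
lemma chart_p (b z : E) (hz : p z ∈ (LI hp b).source) :
    ∃ g : G, ∀ᶠ z' in 𝓝 z, LI hp b (p z') = g • z' := by
  have h1 : p (LI hp b (p z)) = p z := p_LI hp b hz
  obtain ⟨g, hg⟩ := hp.apply_eq_iff_mem_orbit.1 h1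
  refine ⟨g, ?_⟩
  have hc := hp.toContinuousConstSMul
  have h2 : g • z ∈ (LI hp b).target := by
    have : g • z = LI hp b (p z) := hg
    rw [this]
    exact (LI hp b).map_source hz
  have h3 : ∀ᶠ z' in 𝓝 z, g • z' ∈ (LI hp b).target :=
    (continuous_const_smul g).continuousAt ((LI hp b).open_target.mem_nhds h2)
  filter_upwards [h3] with z' hz'
  rw [← hp.map_smul g, LI_p hp b hz']

/-- the chosen lift -/
def lft (x : X) : E := (hp.surjective x).choose

lemma p_lft (x : X) : p (lft hp x) = x := (hp.surjective x).choose_spec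

/-- the charted space structure on the quotient -/
@[reducible] def quotCS : ChartedSpace E X where
  atlas := Set.range (fun x => LI hp (lft hp x))
  chartAt x := LI hp (lft hp x)
  mem_chart_source x := by
    have := mem_LI_source hp (lft hp x)
    rw [p_lft hp x] at this
    exact this
  chart_mem_atlas x := ⟨x, rfl⟩

lemma quot_isManifold (hG : ∀ g : G, ContDiff ℂ ω (fun z : E => g • z)) :
    @IsManifold ℂ _ E _ _ E _ 𝓘(ℂ, E) ω X _ (quotCS hp) := by
  let _ := quotCS hp
  apply isManifold_of_contDiffOn
  rintro _ _ ⟨x, rfl⟩ ⟨y, rfl⟩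
  intro z hz
  simp only [modelWithCornersSelf_coe_symm, modelWithCornersSelf_coe, range_id, inter_univ,
    preimage_id_eq, id_eq, Function.comp_id, Function.id_comp] at hz ⊢
  have h1 : p z ∈ (LI hp (lft hp y)).source := by
    rw [OpenPartialHomeomorph.trans_source] at hz
    have := hz.2
    rw [mem_preimage, LI_symm] at this
    exact this
  obtain ⟨g, hg⟩ := chart_p hp (lft hp y) z h1
  have h2 : ContDiffAt ℂ ω (fun z' => LI hp (lft hp y) (p z')) z :=
    (hG g).contDiffAt.congr_of_eventuallyEq hg
  have h3 : ContDiffAt ℂ ω (⇑((LI hp (lft hp x)).symm.trans (LI hp (lft hp y)))) z := by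
    have : ⇑((LI hp (lft hp x)).symm.trans (LI hp (lft hp y))) =
        fun z' => LI hp (lft hp y) (p z') := by
      funext z'
      rw [OpenPartialHomeomorph.trans_apply, LI_symm]
    rw [this]
    exact h2
  exact h3.contDiffWithinAt

end

end Pool.Agent.H953R2.EC
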